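import Pool.Agent.H.MP_6ba634_co.A

namespace Pool.Agent.Results.MP_6ba634_co.Yes

open Function SimpleGraph Pool.Agent.H.MP_6ba634_co

/-- The colour code of `v`: its distances to the colour classes. -/
noncomputable def code {V : Type} (G : SimpleGraph V) {k : ℕ} (c : V → Fin k) (v : V) (a : Fin k) :
    ℕ∞ := ⨅ w : {w // c w = a}, G.edist v w

/-- `G` has a locating colouring with exactly `k` colours. -/
def Locating {V : Type} (G : SimpleGraph V) (k : ℕ) : Prop :=
  ∃ c : G.Coloring (Fin k), Surjective c ∧ Injective (code G c)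

section
variable {V : Type} {G : SimpleGraph V} {k : ℕ} {c : V → Fin k} {v w : V} {a : Fin k}

lemma code_le (h : c w = a) : code G c v a ≤ G.edist v w := iInf_le_of_le ⟨w, h⟩ le_rfl

lemma lt_code {t : ℕ∞} : t + 1 ≤ code G c v a ↔ ∀ w, c w = a → t + 1 ≤ G.edist v w := by
  simp [code]

lemma one_le : 1 ≤ code G c v a ↔ c v ≠ a := by
  rw [← zero_add 1, lt_code]
  refine ⟨fun h h1 => by simpa using h v h1, fun h w hw => ?_⟩
  rw [zero_add, Order.one_le_iff_pos]
  exact edist_pos_of_ne fun e => h (e ▸ hw)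

lemma two_le : 2 ≤ code G c v a ↔ ∀ w, G.Adj v w ∨ v = w → c w ≠ a := by
  rw [← one_add_one_eq_two, lt_code]
  refine forall_congr' fun w => ?_
  rw [← edist_le_one_iff_adj_or_eq, ENat.add_one_le_iff (by simp), ← not_le, imp_not_comm]

lemma code_zero (h : c v = a) : code G c v a = 0 :=
  le_antisymm ((code_le h).trans (by simp)) bot_le

lemma code_one (h : c v ≠ a) (h1 : G.Adj v w) (h2 : c w = a) : code G c v a = 1 :=
  le_antisymm ((code_le h2).trans (edist_eq_one_iff_adj.2 h1).le) (one_le.2 h)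

lemma code_two {u : V} (h : ∀ w, G.Adj v w ∨ v = w → c w ≠ a) (h1 : G.Adj v u) (h2 : G.Adj u w)
    (h3 : c w = a) : code G c v a = 2 :=
  le_antisymm ((code_le h3).trans ((G.edist_triangle (v := u)).trans (by
    rw [edist_eq_one_iff_adj.2 h1, edist_eq_one_iff_adj.2 h2, one_add_one_eq_two]))) (two_le.2 h)

lemma same (h : code G c v = code G c w) : c v = c w := by
  by_contra h1
  have := one_le (G := G).2 (Ne.symm h1)
  rw [← h, code_zero rfl] at this
  simp at this
end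

section
variable {ι : Type} {H : SimpleGraph ι} {m k : ℕ}

lemma finj (c : ((⊤ : SimpleGraph (Fin m)) □ H).Coloring (Fin k)) (i : ι) :
    Injective fun r => c (r, i) := fun r s h => by
  by_contra h1
  exact c.valid (boxProd_adj_left.2 h1) h

lemma hit {f : Fin m → Fin (m + 1)} (hf : Injective f) {a : Fin (m + 1)} (h : ∀ r, f r ≠ a)
    {b : Fin (m + 1)} (hb : b ≠ a) : ∃ r, f r = b := by
  have : Finset.univ.image f = Finset.univ.erase a := Finset.eq_of_subset_of_card_le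
    (fun x hx => by obtain ⟨r, -, rfl⟩ := Finset.mem_image.1 hx; simp [h])
    (by simp [Finset.card_image_of_injective _ hf])
  have h2 : b ∈ Finset.univ.erase a := by simp [hb]
  rw [← this] at h2
  simpa using h2

lemma agree {c : Fin m × ι → Fin k} {v w : Fin m × ι} (h : c v = c w) {b : Fin k}
    (h1 : ∃ r, c (r, v.2) = b) (h2 : ∃ r, c (r, w.2) = b) :
    code ((⊤ : SimpleGraph (Fin m)) □ H) c v b = code ((⊤ : SimpleGraph (Fin m)) □ H) c w b := by
  by_cases hb : c v = b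
  · rw [code_zero hb, code_zero (h ▸ hb)]
  obtain ⟨r, hr⟩ := h1
  obtain ⟨s, hs⟩ := h2
  rw [code_one hb (w := (r, v.2)) (Or.inl ⟨fun e => hb (by rw [← hr, ← show v.1 = r from e]), rfl⟩) hr,
    code_one (h ▸ hb) (w := (s, w.2)) (Or.inl ⟨fun e => hb (by rw [h, ← hs, ← show w.1 = s from e]), rfl⟩) hs]

lemma lower1 [Nontrivial ι] (h : Locating ((⊤ : SimpleGraph (Fin m)) □ H) k) (hm : 0 < m) :
    m + 1 ≤ k := by
  obtain ⟨c, -, hc⟩ := h
  obtain ⟨i, j, hij⟩ := exists_pair_ne ι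
  have h1 := Fintype.card_le_of_injective _ (finj c i)
  simp only [Fintype.card_fin] at h1
  by_contra h2
  obtain rfl : m = k := by omega
  have s := fun i => Finite.surjective_of_injective (finj c i)
  obtain ⟨r, hr⟩ := s j (c (⟨0, hm⟩, i))
  exact hij (congrArg Prod.snd (hc (funext fun b => agree (v := (⟨0, hm⟩, i)) (w := (r, j)) hr.symm
    (s _ b) (s _ b))))

lemma lower2 [Fintype ι] (h : Locating ((⊤ : SimpleGraph (Fin m)) □ H) (m + 1)) (hm : 5 ≤ m)
    (hH : H.Preconnected) (hd : ∀ i, ∃ p q, ∀ j, H.Adj i j → j = p ∨ j = q) :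
    Fintype.card ι ≤ m + 1 := by
  classical
  obtain ⟨c, hs, hc⟩ := h
  have ms : ∀ i, ∃ a, ∀ r, c (r, i) ≠ a := fun i => by
    by_contra h
    push Not at h
    simpa using Fintype.card_le_of_surjective (fun r => c (r, i)) h
  choose μ hμ using ms
  refine (Fintype.card_le_of_injective μ fun i0 i1 h01 => ?_).trans (by simp)
  by_contra hne
  generalize ha : μ i1 = a at h01
  have A : ∀ i, μ i = a ∨ ∃ r, c (r, i) = a := fun i => by
    by_cases h : a = μ i
    · exact Or.inl h.symm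
    · exact Or.inr (hit (finj c i) (hμ i) h)
  have K : ∀ i j r s, μ i = a → μ j = a → c (r, i) = c (s, j) →
      code (⊤ □ H) c (r, i) a = 2 → code (⊤ □ H) c (s, j) a = 2 → i = j := by
    intro i j r s hi hj h1 h2 h3
    refine congrArg Prod.snd (hc (a₁ := (r, i)) (a₂ := (s, j)) (funext fun b => ?_))
    by_cases hb : b = a
    · rw [hb, h2, h3]
    · exact agree h1 (hit (finj c i) (hμ i) (hi ▸ hb)) (hit (finj c j) (hμ j) (hj ▸ hb))
  have T : ∀ i r, μ i = a → (∀ j, H.Adj i j → c (r, j) ≠ a) →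
      ∀ w, (⊤ □ H).Adj (r, i) w ∨ (r, i) = w → c w ≠ a := by
    rintro i r hi h ⟨s, j⟩ ((⟨-, rfl⟩ | ⟨h1, rfl⟩) | h1)
    · exact hi ▸ hμ _ _
    · exact h _ h1
    · exact h1 ▸ hi ▸ hμ _ _
  have B : ∀ i j, μ i = a → H.Adj i j → μ j ≠ a → ∀ r, (∀ j, H.Adj i j → c (r, j) ≠ a) →
      code (⊤ □ H) c (r, i) a = 2 := by
    intro i j hi hij hj r h
    obtain ⟨s, hs⟩ := (A j).resolve_left hj
    exact code_two (T i r hi h) (u := (s, i)) (boxProd_adj_left.2 fun e => h j hij (e ▸ hs))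
      (boxProd_adj_right.2 hij) hs
  have B2 : ∀ i, (Finset.univ.filter fun b => ∃ r j, H.Adj i j ∧ c (r, j) = a ∧ c (r, i) = b).card ≤ 2 := by
    intro i
    obtain ⟨p, q, hpq⟩ := hd i
    have one : ∀ p, (Finset.univ.filter fun b => ∃ r, c (r, p) = a ∧ c (r, i) = b).card ≤ 1 :=
      fun p => Finset.card_le_one.2 fun x hx y hy => by
        obtain ⟨r, h1, rfl⟩ := (Finset.mem_filter.1 hx).2
        obtain ⟨s, h2, rfl⟩ := (Finset.mem_filter.1 hy).2
        rw [finj c p (h1.trans h2.symm)]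
    refine (Finset.card_le_card fun b hb => ?_).trans ((Finset.card_union_le _ _).trans
      (add_le_add (one p) (one q)))
    obtain ⟨r, j, h1, h2, h3⟩ := (Finset.mem_filter.1 hb).2
    rcases hpq j h1 with rfl | rfl
    · exact Finset.mem_union_left _ (Finset.mem_filter.2 ⟨Finset.mem_univ _, r, h2, h3⟩)
    · exact Finset.mem_union_right _ (Finset.mem_filter.2 ⟨Finset.mem_univ _, r, h2, h3⟩)
  have U : ∀ i j i' j', μ i = a → H.Adj i j → μ j ≠ a → μ i' = a → H.Adj i' j' → μ j' ≠ a → i = i' := by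
    intro i j i' j' h1 h2 h3 h4 h5 h6
    obtain ⟨b, hb⟩ : ∃ b, b ∉ insert a ((Finset.univ.filter fun b => ∃ r j, H.Adj i j ∧ c (r, j) = a ∧
        c (r, i) = b) ∪ Finset.univ.filter fun b => ∃ r j, H.Adj i' j ∧ c (r, j) = a ∧ c (r, i') = b) := by
      by_contra h
      push Not at h
      have := (Finset.card_le_card fun b (_ : b ∈ Finset.univ) => h b).trans
        ((Finset.card_insert_le _ _).trans (Nat.succ_le_succ ((Finset.card_union_le _ _).trans
          (add_le_add (B2 i) (B2 i')))))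
      simp at this
      omega
    simp only [Finset.mem_insert, Finset.mem_union, Finset.mem_filter, Finset.mem_univ, true_and,
      not_or, not_exists, not_and] at hb
    obtain ⟨r, hr⟩ := hit (finj c i) (hμ i) (h1 ▸ hb.1)
    obtain ⟨s, hs⟩ := hit (finj c i') (hμ i') (h4 ▸ hb.1)
    exact K i i' r s h1 h4 (hr.trans hs.symm) (B i j h1 h2 h3 r fun l h7 h8 => hb.2.1 r l h7 h8 hr)
      (B i' j' h4 h5 h6 s fun l h7 h8 => hb.2.2 s l h7 h8 hs)
  have X : ∀ (P : ι → Prop) x y, P x → ¬ P y → ∃ u v, P u ∧ H.Adj u v ∧ ¬ P v := by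
    intro P x y hx hy
    obtain ⟨p⟩ := hH x y
    induction p with
    | nil => exact absurd hx hy
    | @cons u v w h p ih =>
      by_cases hv : P v
      · exact ih hv hy
      · exact ⟨u, v, hx, h, hv⟩
  obtain ⟨⟨r0, j0⟩, h0⟩ := hs a
  obtain ⟨i, j, h1, h2, h3⟩ := X (fun i => μ i = a) i0 j0 h01 fun h => hμ j0 r0 (h ▸ h0)
  obtain ⟨i2, h4, h5⟩ : ∃ i2, μ i2 = a ∧ i2 ≠ i := by
    by_cases h : i0 = i
    · exact ⟨i1, ha, fun e => hne (h.trans e.symm)⟩
    · exact ⟨i0, h01, h⟩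
  obtain ⟨i', l, ⟨h6, h7⟩, h8, h9⟩ := X (fun x => μ x = a ∧ x ≠ i) i2 i ⟨h4, h5⟩ (by simp)
  have nb : ∀ l, H.Adj i' l → μ l = a := fun l hl => by
    by_contra h
    exact h7 (U _ _ _ _ h6 hl h h1 h2 h3)
  obtain rfl : l = i := by
    by_contra h
    exact h9 ⟨nb l h8, h⟩
  obtain ⟨g, hg⟩ := (A j).resolve_left h3
  obtain ⟨r, hr⟩ := hit (finj c l) (hμ l) (b := c (g, i')) (h1 ▸ h6 ▸ hμ _ _)
  refine h7 (K i' l g r h6 h1 hr.symm (code_two (T _ _ h6 fun x hx => nb x hx ▸ hμ _ _)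
    (boxProd_adj_right.2 h8) (boxProd_adj_right.2 h2) hg) (B l j h1 h2 h3 r fun x hx h => ?_))
  obtain ⟨p, q, hpq⟩ := hd l
  have e1 : x ≠ i' := fun e => hμ i' r (by rw [h6, ← e, h])
  have e2 : j ≠ i' := fun e => h3 (e ▸ h6)
  obtain rfl : x = j := by
    have := hpq _ hx
    have := hpq _ h2
    have := hpq _ h8.symm
    grind
  obtain rfl : r = g := finj c x (h.trans hg.symm)
  exact c.valid (boxProd_adj_right.2 h8) hr.symm

lemma apart (σ : Equiv.Perm ι) (hH : ∀ i j, H.Adj i j → j = σ i ∨ i = σ j) {g : ι → Fin m}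
    {μ : ι → Fin (m + 1)} {c : ι → Fin m → Fin (m + 1)}
    (hc : ∀ i, Injective (c i) ∧ (∀ r, c i r ≠ μ i) ∧ c i (g (σ.symm i)) = μ (σ.symm i) ∧
      c i (g (σ i)) = μ (σ i) ∧ c i (g i) = μ (σ (σ i)))
    {e : Fin (m + 1) → Fin k} {d : Fin m × ι → Fin k}
    (h1 : ∀ v a, d v = e (μ a) ↔ c v.2 v.1 = μ a) {v w : Fin m × ι}
    (h : code ((⊤ : SimpleGraph (Fin m)) □ H) d v = code ((⊤ : SimpleGraph (Fin m)) □ H) d w)
    (h2 : μ v.2 ≠ μ w.2) : v.1 = g v.2 := by
  by_contra h3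
  obtain ⟨r, hr⟩ := hit (hc w.2).1 (hc w.2).2.1 h2
  have h4 : 2 ≤ code ((⊤ : SimpleGraph (Fin m)) □ H) d v (e (μ v.2)) := by
    rw [two_le]
    rintro ⟨s, j⟩ ((⟨-, h5⟩ | ⟨h5, h6⟩) | rfl) <;> rw [Ne, h1]
    · rw [h5]; exact (hc _).2.1 _
    · intro h7
      apply h3
      rw [h6]
      refine (hc j).1 (h7.trans ?_)
      rcases hH _ _ h5 with h8 | h8
      · have := (hc j).2.2.1
        rw [show σ.symm j = v.2 by simp [show j = σ v.2 from h8]] at this
        exact this.symm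
      · rw [show v.2 = σ j from h8]; exact (hc j).2.2.2.1.symm
    · exact (hc _).2.1 _
  rw [h, two_le] at h4
  refine h4 (r, w.2) ?_ ((h1 _ _).2 hr)
  by_cases h5 : w.1 = r
  · exact Or.inr (by rw [← h5])
  · exact Or.inl (Or.inl ⟨h5, rfl⟩)

end

/-- An auxiliary periodic labelling. -/
def lab (n a : ℕ) : ℕ := if a < 6 then a else 6 + 2 * (a % 8) + if 2 * a < n + 2 then 0 else 1

lemma lab_lt (n a : ℕ) : lab n a < 22 := by unfold lab; split_ifs <;> omega

lemma rot {n : ℕ} (i : Fin (n + 1)) : ((finRotate (n + 1) i : ℕ) = i + 1 ∧ (i : ℕ) < n) ∨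
    ((finRotate (n + 1) i : ℕ) = 0 ∧ (i : ℕ) = n) := by
  rw [coe_finRotate]
  have := i.2
  split_ifs with h
  · simp [h]
  · rw [Fin.ext_iff, Fin.val_last] at h; omega

lemma lab_rot {n : ℕ} (hn : 21 ≤ n) (i : Fin (n + 1)) :
    lab (n + 1) (finRotate _ i) ≠ lab (n + 1) i ∧
    lab (n + 1) (finRotate _ (finRotate _ i)) ≠ lab (n + 1) i ∧
    lab (n + 1) (finRotate _ (finRotate _ (finRotate _ i))) ≠ lab (n + 1) i := by
  have h1 := rot i
  have h2 := rot (finRotate _ i)
  have h3 := rot (finRotate _ (finRotate _ i))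
  unfold lab
  refine ⟨?_, ?_, ?_⟩ <;> split_ifs <;> omega

lemma cyc {n : ℕ} {i j : Fin (n + 1)} (h : (cycleGraph (n + 1)).Adj i j) :
    j = finRotate _ i ∨ i = finRotate _ j := by
  cases n with
  | zero => exact absurd h cycleGraph_one_adj
  | succ n =>
    rw [finRotate_apply, finRotate_apply]
    rcases cycleGraph_adj.1 h with h | h
    · exact Or.inr (by rw [← h]; abel)
    · exact Or.inl (by rw [← h]; abel)

lemma main {m n : ℕ} (hm : 22 ≤ m) (hn : 21 ≤ n) {H : SimpleGraph (Fin (n + 1))}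
    (h1 : pathGraph _ ≤ H) (h2 : H ≤ cycleGraph _) (ρ : Fin (n + 1) → ℕ) (r0 : ∀ i, ρ i = 0 ↔ i = 0)
    (r1 : ∀ i j, H.Adj i j → ρ i ≤ ρ j + 1) (r2 : ∀ i, ρ i ≠ 0 → ∃ j, H.Adj i j ∧ ρ j + 1 = ρ i)
    (r3 : ∀ i, ρ i = i ∨ ρ i + i = n + 1) :
    IsLeast {k | Locating ((⊤ : SimpleGraph (Fin m)) □ H) k} (if n + 1 ≤ m + 1 then m + 1 else m + 2) := by
  classical
  have hH : ∀ i j, H.Adj i j → j = finRotate _ i ∨ i = finRotate _ j := fun i j h => cyc (h2 h)
  haveI : Nontrivial (Fin (n + 1)) := Fin.nontrivial_iff_two_le.2 (by omega)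
  let g : Fin (n + 1) → Fin m := fun i => ⟨lab (n + 1) i, (lab_lt _ _).trans_le hm⟩
  have hg := fun i => lab_rot hn i
  have proper : ∀ {c : Fin (n + 1) → Fin m → Fin (m + 1)}, (∀ i, Injective (c i)) →
      (∀ i r, c i r ≠ c (finRotate _ i) r) → ∀ v w : Fin m × Fin (n + 1),
      ((⊤ : SimpleGraph (Fin m)) □ H).Adj v w → c v.2 v.1 ≠ c w.2 w.1 := by
    rintro c a1 a2 ⟨r, i⟩ ⟨s, j⟩ (⟨h, rfl⟩ | ⟨h, rfl⟩)
    · exact (a1 _).ne h
    · rcases hH i j h with rfl | rfl
      · exact a2 _ _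
      · exact (a2 _ _).symm
  split_ifs with h
  · refine ⟨?_, fun k hk => lower1 hk (by omega)⟩
    have hi := Fin.castLE_injective h
    obtain ⟨c, hc, hp⟩ := design (by simp) (by simp; omega) (finRotate _) g (Fin.castLE h)
      (fun i => by simpa [g, Fin.ext_iff] using hg i) fun i =>
        ⟨hi.ne fun e => (hg i).1 (by rw [e]), hi.ne fun e => (hg i).2.1 (by rw [e]),
          hi.ne fun e => (hg i).2.2 (by rw [e])⟩
    refine ⟨Coloring.mk (fun v => c v.2 v.1) (proper (fun i => (hc i).1) hp _ _), fun a => ?_,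
      fun v w hvw => ?_⟩
    · obtain ⟨i, hi⟩ : ∃ i, a ≠ Fin.castLE h i := by
        by_contra h3
        push Not at h3
        obtain ⟨x, y, hxy⟩ := exists_pair_ne (Fin (n + 1))
        exact hxy (hi ((h3 x).symm.trans (h3 y)))
      obtain ⟨r, hr⟩ := hit (hc i).1 (hc i).2.1 hi
      exact ⟨(r, i), hr⟩
    have e0 : c v.2 v.1 = c w.2 w.1 := same hvw
    suffices e : v.2 = w.2 from Prod.ext ((hc _).1 (e0.trans (by rw [e]))) e
    by_contra e
    have e1 := apart _ hH hc (e := id) (fun _ _ => Iff.rfl) hvw (hi.ne e)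
    have e2 := apart _ hH hc (e := id) (fun _ _ => Iff.rfl) hvw.symm (hi.ne (Ne.symm e))
    rw [e1, e2, (hc _).2.2.2.2, (hc _).2.2.2.2] at e0
    exact e ((finRotate _).injective ((finRotate _).injective (hi e0)))
  refine ⟨?_, fun k hk => ?_⟩
  swap
  · have := lower1 hk (by omega)
    by_contra h3
    obtain rfl : k = m + 1 := by omega
    refine h (by simpa using lower2 hk (by omega) ((pathGraph_preconnected _).mono h1) fun i =>
      ⟨finRotate _ i, (finRotate _).symm i, fun j hj => (hH i j hj).imp id fun e => by simp [e]⟩)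
  let μ : Fin (n + 1) → Fin (m + 1) := fun i => (g i).castSucc
  obtain ⟨c, hc, hp⟩ := design (by simp) (by simp; omega) (finRotate _) g μ
    (fun i => by simpa [g, Fin.ext_iff] using hg i) fun i => by simpa [μ, g, Fin.ext_iff] using hg i
  obtain ⟨s, hs⟩ := hit (hc 0).1 (hc 0).2.1 (b := Fin.last m) (Fin.castSucc_lt_last _).ne'
  let d : Fin m × Fin (n + 1) → Fin (m + 2) := fun v => if v = (s, 0) then 0 else (c v.2 v.1).succ
  have d0 : ∀ v, d v = 0 ↔ v = (s, 0) := fun v => by simp [d]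
  have d1 : ∀ v a, d v = (μ a).succ ↔ c v.2 v.1 = μ a := fun v a => by
    by_cases h3 : v = (s, 0)
    · simp [d, h3, hs, μ, (Fin.succ_ne_zero _).symm, (Fin.castSucc_lt_last _).ne']
    · simp [d, h3]
  have d2 : ∀ v w, d v = d w → v = w ∨ c v.2 v.1 = c w.2 w.1 := fun v w h3 => by
    by_cases h4 : v = (s, 0)
    · exact Or.inl (h4.trans ((d0 w).1 (h3 ▸ (d0 v).2 h4)).symm)
    · have h5 : w ≠ (s, 0) := fun e => h4 ((d0 v).1 (h3 ▸ (d0 w).2 e))
      exact Or.inr (by simpa [d, h4, h5] using h3)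
  have lo : ∀ v w : Fin m × Fin (n + 1), ∀ p : ((⊤ : SimpleGraph (Fin m)) □ H).Walk v w,
      ρ v.2 ≤ ρ w.2 + p.length := by
    intro v w p
    induction p with
    | nil => simp
    | @cons u v w h p ih =>
      rw [Walk.length_cons]
      rcases h with ⟨-, h⟩ | ⟨h, -⟩
      · rw [h]; omega
      · have := r1 _ _ h; omega
  have up : ∀ (t : ℕ) r i, ρ i = t →
      ((⊤ : SimpleGraph (Fin m)) □ H).edist (r, i) (s, 0) ≤ (t + 1 : ℕ) := by
    intro t
    induction t with
    | zero =>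
      intro r i hi
      rw [(r0 i).1 hi]
      by_cases h3 : r = s
      · simp [h3]
      · exact (edist_eq_one_iff_adj.2 (boxProd_adj_left.2 h3)).le
    | succ t ih =>
      intro r i hi
      obtain ⟨j, h3, h4⟩ := r2 i (by omega)
      refine (SimpleGraph.edist_triangle (v := (r, j))).trans ?_
      rw [edist_eq_one_iff_adj.2 (boxProd_adj_right.2 h3), Nat.cast_add (t + 1), add_comm]
      exact add_le_add_left (ih r j (by omega)) _
  have cl : ∀ v w, code ((⊤ : SimpleGraph (Fin m)) □ H) d v =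
      code ((⊤ : SimpleGraph (Fin m)) □ H) d w → ρ v.2 ≤ ρ w.2 + 1 := by
    intro v w h3
    have h4 : (ρ v.2 : ℕ∞) ≤ code ((⊤ : SimpleGraph (Fin m)) □ H) d v 0 :=
      le_iInf fun x => by
        rw [edist_eq_sInf]
        refine le_sInf ?_
        rintro _ ⟨p, rfl⟩
        have := lo _ _ p
        rw [(r0 x.1.2).2 (congrArg Prod.snd ((d0 _).1 x.2))] at this
        simpa using this
    exact_mod_cast h4.trans (h3 ▸ (code_le ((d0 _).2 rfl)).trans (up _ w.1 w.2 rfl))
  refine ⟨Coloring.mk d fun {v w} h3 h4 => (d2 _ _ h4).elim h3.ne (proper (fun i => (hc i).1) hp _ _ h3),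
    fun a => ?_, fun v w hvw => ?_⟩
  · induction a using Fin.cases with
    | zero => exact ⟨_, (d0 _).2 rfl⟩
    | succ a =>
      obtain ⟨i, hi, h3⟩ : ∃ i, i ≠ 0 ∧ a ≠ μ i := by
        by_contra h3
        push Not at h3
        have := (h3 ⟨1, by omega⟩ (by simp)).symm.trans (h3 ⟨2, by omega⟩ (by simp))
        simp [μ, g, lab] at this
      obtain ⟨r, hr⟩ := hit (hc i).1 (hc i).2.1 h3
      exact ⟨(r, i), by simp [Coloring.mk, d, hi, hr]⟩
  refine (d2 v w (same hvw)).elim id fun e0 => ?_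
  suffices e : v.2 = w.2 from Prod.ext ((hc _).1 (e0.trans (by rw [e]))) e
  by_contra e
  have c1 := cl _ _ hvw
  have c2 := cl _ _ hvw.symm
  have c3 := r3 v.2
  have c4 := r3 w.2
  rw [Fin.ext_iff] at e
  have e3 : μ v.2 ≠ μ w.2 := by
    simp only [μ, g, Ne, Fin.ext_iff, Fin.val_castSucc, lab]
    split_ifs <;> omega
  have e1 := apart _ hH hc d1 hvw e3
  have e2 := apart _ hH hc d1 hvw.symm e3.symm
  rw [e1, e2, (hc _).2.2.2.2, (hc _).2.2.2.2] at e0
  have a1 := rot v.2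
  have a2 := rot (finRotate _ v.2)
  have a3 := rot w.2
  have a4 := rot (finRotate _ w.2)
  simp only [μ, g, Fin.ext_iff, Fin.val_castSucc, lab] at e0
  split_ifs at e0 <;> omega

theorem result (m n : ℕ) (hm : 22 ≤ m) (hn : 22 ≤ n) :
    IsLeast {k | Locating ((⊤ : SimpleGraph (Fin m)) □ cycleGraph n) k}
      (if n ≤ m + 1 then m + 1 else m + 2) ∧
    IsLeast {k | Locating ((⊤ : SimpleGraph (Fin m)) □ pathGraph n) k}
      (if n ≤ m + 1 then m + 1 else m + 2) := by
  obtain ⟨n, rfl⟩ : ∃ k, n = k + 1 := ⟨n - 1, by omega⟩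
  constructor
  · refine main hm (by omega) pathGraph_le_cycleGraph le_rfl (fun i => min i (n + 1 - i))
      (fun i => ?_) (fun i j h => ?_) (fun i h => ?_) fun i => by have := i.2; omega
    · have := i.2
      rw [Fin.ext_iff, Fin.val_zero]; omega
    · have h1 := rot i
      have h2 := rot j
      rcases cyc h with h | h <;> rw [Fin.ext_iff] at h <;> omega
    · have := i.2
      by_cases h1 : 2 * i ≤ n + 1
      · exact ⟨⟨i - 1, by omega⟩, pathGraph_le_cycleGraph (pathGraph_adj.2 (by dsimp only; omega)),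
          by dsimp only; omega⟩
      by_cases h2 : (i : ℕ) = n
      · refine ⟨0, cycleGraph_adj'.2 (Or.inr ?_), by simp; omega⟩
        rw [Fin.sub_def]
        simp only [Fin.val_zero, h2]
        rw [Nat.mod_eq_of_lt] <;> omega
      · exact ⟨⟨i + 1, by omega⟩, pathGraph_le_cycleGraph (pathGraph_adj.2 (by dsimp only; omega)),
          by dsimp only; omega⟩
  · refine main hm (by omega) le_rfl pathGraph_le_cycleGraph (fun i => i)
      (fun i => by simp) (fun i j h => ?_) (fun i h => ?_) fun i => Or.inl rfl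
    · have := pathGraph_adj.1 h; omega
    · exact ⟨⟨i - 1, by omega⟩, pathGraph_adj.2 (by dsimp only; omega), by dsimp only; omega⟩

end Pool.Agent.Results.MP_6ba634_co.Yes
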